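import Pool.Agent.Run7.h323.TQ.Main

/-!
# Complex manifolds with a map to a toric bundle over a quotient of a complex torus
-/

set_option autoImplicit false
set_option linter.unusedSectionVars false

namespace Run7.h323.TQ

open Pool.Agent.W594.SYZ2 MvPolynomial Q47.TB Q47.FJ

variable {V : Type*} [NormedAddCommGroup V] [NormedSpace ℂ V]
  {Γ : Subgroup (V ≃ᵃ[ℂ] V)} {ι : Type*} [Fintype ι] {n : ℕ}
  {E I K : Type*} [NormedAddCommGroup E] [NormedSpace ℂ E] {M : Atlas E I K}

theorem ev_mul (A B : LB M) (k : K) (z : E) : ev (A * B) k z = ev A k z * ev B k z := by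
  change (((A.1 * B.1) k z : ℂˣ) : ℂ) = _
  simp only [Pi.mul_apply, Units.val_mul]
  rfl

theorem ev_one (k : K) (z : E) : ev (1 : LB M) k z = 1 := by
  change (((1 : K → E → ℂˣ) k z : ℂˣ) : ℂ) = _
  simp

theorem ev_pow (A : LB M) (N : ℕ) (k : K) (z : E) : ev (A ^ N) k z = ev A k z ^ N := by
  induction N with
  | zero => rw [pow_zero, pow_zero, ev_one]
  | succ N ih => rw [pow_succ, pow_succ, ev_mul, ih]

/-- The action of the group of the Cox coordinates on a homogeneous polynomial. -/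
theorem eval_torus {u : ι → Fin n → ℤ} {p : MvPolynomial ι ℂ} {d : ι → ℤ} (hp : HasClass u p d)
    {t : ι → ℂˣ} (ht : ∀ j, ∏ l, t l ^ u l j = 1) (y : ι → ℂ) :
    eval (fun l => (t l : ℂ) * y l) p = (∏ l, (t l : ℂ) ^ d l) * eval y p := by
  rw [eval_eq', eval_eq', Finset.mul_sum]
  refine Finset.sum_congr rfl fun α hα => ?_
  obtain ⟨q, hq⟩ := hp α hα
  have h1 : ∏ l, (t l : ℂ) ^ α l = ∏ l, (t l : ℂ) ^ d l := by
    have h2 : ∀ l, (t l : ℂ) ^ α l = (t l : ℂ) ^ d l * ∏ j, ((t l : ℂ) ^ u l j) ^ q j := by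
      intro l
      have h0 : (α l : ℤ) = d l + ∑ k, q k * u l k := hq l
      rw [← zpow_natCast, h0, zpow_add₀ (t l).ne_zero]
      congr 1
      rw [Finset.prod_congr rfl fun j _ => (zpow_mul (t l : ℂ) (u l j) (q j)).symm]
      have h3 : ∀ s : Finset (Fin n), (t l : ℂ) ^ (∑ k ∈ s, q k * u l k)
          = ∏ k ∈ s, (t l : ℂ) ^ (u l k * q k) := by
        intro s
        classical
        induction s using Finset.induction_on with
        | empty => simp
        | insert a s ha ih =>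
          rw [Finset.sum_insert ha, Finset.prod_insert ha, zpow_add₀ (t l).ne_zero, ih,
            mul_comm (q a)]
      exact h3 Finset.univ
    rw [Finset.prod_congr rfl fun l _ => h2 l, Finset.prod_mul_distrib, Finset.prod_comm]
    have h4 : ∀ j, ∏ l, ((t l : ℂ) ^ u l j) ^ q j = 1 := by
      intro j
      rw [Finset.prod_zpow]
      have h5 := congrArg (fun w : ℂˣ => (w : ℂ)) (ht j)
      simp only [Units.coe_prod, Units.val_zpow_eq_zpow_val, Units.val_one] at h5
      rw [h5, one_zpow]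
    rw [Finset.prod_congr rfl fun j _ => h4 j, Finset.prod_const_one, mul_one]
  simp only [mul_pow, Finset.prod_mul_distrib]
  rw [h1]
  ring

/-- A class contains only finitely many effective divisors of this form. -/
theorem finite_class {u : ι → Fin n → ℤ} {S : Set (Set ι)} (hS : IsSmoothFan u S) (d : ι → ℤ) :
    {α : ι →₀ ℕ | LinEquiv u (fun i => (α i : ℤ)) d}.Finite := by
  classical
  have hb : ∀ w : Fin n → ℤ, ∃ A : ℤ, ∀ (α : ι →₀ ℕ) (q : Fin n → ℤ),
      (∀ i, (α i : ℤ) = d i + ∑ k, q k * u i k) → A ≤ ∑ k, q k * w k := by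
    intro w
    obtain ⟨a, ⟨-, ha⟩, -⟩ := hS.rep w
    refine ⟨-∑ i, (a i : ℤ) * d i, fun α q hq => ?_⟩
    have h1 : ∑ k, q k * w k = ∑ i, (a i : ℤ) * ((α i : ℤ) - d i) := by
      calc ∑ k, q k * w k = ∑ k, ∑ i, (a i : ℤ) * (q k * u i k) := by
            refine Finset.sum_congr rfl fun k _ => ?_
            rw [← ha k, Finset.mul_sum]
            exact Finset.sum_congr rfl fun i _ => by ring
        _ = ∑ i, (a i : ℤ) * ∑ k, q k * u i k := by
            rw [Finset.sum_comm]
            exact Finset.sum_congr rfl fun i _ => (Finset.mul_sum _ _ _).symm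
        _ = _ := Finset.sum_congr rfl fun i _ => by rw [hq i]; ring
    rw [h1]
    simp only [mul_sub, Finset.sum_sub_distrib]
    have h2 : 0 ≤ ∑ i, (a i : ℤ) * (α i : ℤ) :=
      Finset.sum_nonneg fun i _ => mul_nonneg (Int.natCast_nonneg _) (Int.natCast_nonneg _)
    linarith
  choose A hA using hb
  have hfin : (Set.Icc (fun k => A (Pi.single k 1)) (fun k => -A (-Pi.single k 1)) :
      Set (Fin n → ℤ)).Finite := Set.finite_Icc _ _
  refine (hfin.image fun q => Finsupp.equivFunOnFinite.symm fun i =>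
    (d i + ∑ k, q k * u i k).toNat).subset ?_
  rintro α ⟨q, hq⟩
  refine ⟨q, ⟨fun k => ?_, fun k => ?_⟩, ?_⟩
  · have := hA (Pi.single k 1) α q hq
    simpa [Pi.single_apply] using this
  · have := hA (-Pi.single k 1) α q hq
    simp [Pi.single_apply] at this
    simp only
    linarith
  · ext i
    have h1 : (α i : ℤ) = d i + ∑ k, q k * u i k := hq i
    simp only [Finsupp.equivFunOnFinite_symm_apply_apply]
    rw [← h1]
    simp

theorem diff_eval {u : ι → Fin n → ℤ} {S : Set (Set ι)} (hS : IsSmoothFan u S) {d : ι → ℤ}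
    {G : V → MvPolynomial ι ℂ} (hG : ∀ α, Differentiable ℂ fun v => coeff α (G v))
    (hd : ∀ v, HasClass u (G v) d) {U : Set E} {v : E → V} {x : E → ι → ℂ}
    (hv : DifferentiableOn ℂ v U) (hx : DifferentiableOn ℂ x U) :
    DifferentiableOn ℂ (fun z => eval (x z) (G (v z))) U := by
  classical
  set T := (finite_class hS d).toFinset with hT
  have h1 : (fun z => eval (x z) (G (v z))) =
      fun z => ∑ α ∈ T, coeff α (G (v z)) * ∏ l, x z l ^ α l := by
    funext z
    rw [eval_eq']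
    refine Finset.sum_subset (fun α hα => ?_) fun α _ hα => ?_
    · rw [hT, Set.Finite.mem_toFinset]
      exact hd _ α hα
    · rw [notMem_support_iff.1 hα, zero_mul]
  rw [h1]
  refine DifferentiableOn.fun_sum fun α _ => ?_
  refine DifferentiableOn.mul ((hG α).comp_differentiableOn hv) ?_
  have h2 : ∀ s : Finset ι, DifferentiableOn ℂ (fun z => ∏ l ∈ s, x z l ^ α l) U := by
    intro s
    induction s using Finset.induction_on with
    | empty => simp only [Finset.prod_empty]; exact differentiableOn_const _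
    | insert a s ha ih =>
      simp only [Finset.prod_insert ha]
      exact (((differentiableOn_pi.1 hx) a).pow _).mul ih
  exact h2 Finset.univ

/-- Sections pull back. -/
theorem gg_pullback {u : ι → Fin n → ℤ} {S : Set (Set ι)} (hS : IsSmoothFan u S)
    {c : ι → LineBundle Γ} (f : LiftedMap M u S c) {A : LB M} {b : ℕ} {d : ι → ℤ} {L : LineBundle Γ}
    (hA : IsPullback f A (fun i => b * d i) fun γ v => L.e γ v ^ b) {N : ℕ}
    (hG : IsGG u S c (fun i => N * d i) fun γ v => L.e γ v ^ N) : GG (A ^ N) := by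
  obtain ⟨h, hh, hh0, he⟩ := hA
  intro i₀ z₀ hz₀
  obtain ⟨G, hG, hG0⟩ := hG (f.v i₀ z₀) (f.x i₀ z₀) (f.mem i₀ z₀ hz₀)
  refine ⟨fun i z => h i z ^ N * (eval (f.x i z) (G (f.v i z))) ^ b, ⟨fun i => ?_, ?_⟩, ?_⟩
  · refine ((hh i).pow N).mul (DifferentiableOn.pow ?_ b)
    exact diff_eval hS hG.holo hG.deg (f.holo_v i) (f.holo_x i)
  · intro k z hz
    have h1 : f.x (M.t k) (M.φ k z) = fun l => (f.t k z l : ℂ) *
        ((c l).e (f.γ k z) (f.v (M.s k) z) * f.x (M.s k) z l) := funext (f.eq_x k z hz)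
    have h2 := eval_torus (p := G (f.v (M.t k) (M.φ k z))) (hG.deg _) (f.t_mem k z hz)
      (fun l => (c l).e (f.γ k z) (f.v (M.s k) z) * f.x (M.s k) z l)
    rw [← h1] at h2
    have h3 := hG.eq (f.γ k z) (f.v (M.s k) z) (f.x (M.s k) z)
    rw [← f.eq_v k z hz] at h3
    rw [h2, h3]
    have h4 := congrArg (· ^ N) (he k z hz)
    simp only [mul_pow] at h4
    have h7 : (∏ l, (f.t k z l : ℂ) ^ ((N : ℤ) * d l)) ^ b =
        (∏ l, (f.t k z l : ℂ) ^ ((b : ℤ) * d l)) ^ N := by
      rw [← Finset.prod_pow, ← Finset.prod_pow]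
      refine Finset.prod_congr rfl fun l _ => ?_
      rw [← zpow_natCast, ← zpow_mul, ← zpow_natCast, ← zpow_mul]
      congr 1
      ring
    rw [ev_pow]
    rw [mul_pow, mul_pow, h7]
    have h8 : (L.e (f.γ k z) (f.v (M.s k) z) ^ N) ^ b =
        (L.e (f.γ k z) (f.v (M.s k) z) ^ b) ^ N := by
      rw [← pow_mul, ← pow_mul, mul_comm]
    rw [h8]
    linear_combination (-(eval (f.x (M.s k) z) (G (f.v (M.s k) z))) ^ b) * h4
  · exact mul_ne_zero (pow_ne_zero _ (hh0 i₀ z₀ hz₀)) (pow_ne_zero _ hG0)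

end Run7.h323.TQ
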