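import Pool.Agent.Q47.TB.Defs
import Pool.Agent.Q47.FJ.DefsT

/-!
# Nef and semiample line bundles on toric bundles over quotients of complex tori, and maps to them

`X = V / Γ` is the quotient of a complex torus by a finite group, `Y → X` the toric bundle given by the
smooth complete fan with the rays `u i`, `i ∈ ι`, and the cones `σ ∈ S`, and by the line bundles `c i`
on `X`; see `Pool.Agent.Q47.TB.Defs`.
-/

set_option autoImplicit false

namespace Run7.h323.TQ

open Pool.Agent.W594.SYZ2 Q47.TB Q47.FJ MvPolynomial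

variable {V : Type*} [NormedAddCommGroup V] [NormedSpace ℂ V] {Γ : Subgroup (V ≃ᵃ[ℂ] V)}
  {ι : Type*} [Fintype ι] {n : ℕ}

/-- `σ` is a maximal cone. -/
def IsMax (S : Set (Set ι)) (σ : Set ι) : Prop := σ ∈ S ∧ ∀ τ ∈ S, σ ⊆ τ → τ = σ

/-- The line bundle `O_Y(d; L)` on `Y` is nef; `H` and `Hc i` are the Chern forms of `L` and `c i`. For
each maximal cone `σ` some multiple `K > 0` of the class of `∑ d_i D_i` contains an effective divisor
`∑ β_i D_i` with `β_i = 0` for `i ∈ σ`: this says that `O_Y(d; L)` is nef on the fibres. Then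
`L ^ K ⊗ ∏ c_i ^ (-β_i)` is the restriction of `O_Y(d; L) ^ K` to the section `x_i = 0`, `i ∈ σ`, of
`Y → X`, and the restriction is nef. (As the sections `∏ x_i ^ β_i` of these line bundles generate
`O_Y(d; L)` on the fibres, this is equivalent to `O_Y(d; L)` being nef.) -/
def IsNef (u : ι → Fin n → ℤ) (S : Set (Set ι)) (Hc : ι → V → V → ℂ) (d : ι → ℤ)
    (H : V → V → ℂ) : Prop :=
  ∀ σ, IsMax S σ → ∃ K : ℕ, 1 ≤ K ∧ ∃ β : ι → ℕ, (∀ i ∈ σ, β i = 0) ∧
    LinEquiv u (fun i => (β i : ℤ)) (fun i => K * d i) ∧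
    IsNefForm fun v w => K * H v w - ∑ i, (β i : ℂ) * Hc i v w

/-- The line bundle `O(d)` on the toric variety of the fan is nef: for each maximal cone `σ` some
multiple of the class of `∑ d_i D_i` contains an effective divisor `∑ β_i D_i` with `β_i = 0` for
`i ∈ σ`. -/
def IsFibreNef (u : ι → Fin n → ℤ) (S : Set (Set ι)) (d : ι → ℤ) : Prop :=
  ∀ σ, IsMax S σ → ∃ K : ℕ, 1 ≤ K ∧ ∃ β : ι → ℕ, (∀ i ∈ σ, β i = 0) ∧
    LinEquiv u (fun i => (β i : ℤ)) (fun i => K * d i)

/-- The line bundle `O_Y(d; L)` is generated by its global sections, where `L` is the line bundle with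
the factor of automorphy `e`. -/
def IsGG (u : ι → Fin n → ℤ) (S : Set (Set ι)) (c : ι → LineBundle Γ) (d : ι → ℤ)
    (e : Γ → V → ℂ) : Prop :=
  ∀ (v : V) (x : ι → ℂ), {i | x i = 0} ∈ S → ∃ G, IsSection u c d e G ∧ eval x (G v) ≠ 0

/-- The line bundle `O_Y(d; L)` is semiample. -/
def IsSemiample (u : ι → Fin n → ℤ) (S : Set (Set ι)) (c : ι → LineBundle Γ) (d : ι → ℤ)
    (L : LineBundle Γ) : Prop :=
  ∃ N : ℕ, 1 ≤ N ∧ IsGG u S c (fun i => N * d i) fun γ v => L.e γ v ^ N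

/-- A holomorphic map from the complex manifold `M` to `Y` which lifts locally to
`V × {x ∈ ℂ^ι | {i | x_i = 0} is a cone}` (all holomorphic maps do, if `Γ` acts freely on `V`): the lifts
`(v, x)` on the charts, and the elements `γ` of `Γ` and `t` of the group of the Cox coordinates which
relate the lifts at the same point of `M`. -/
structure LiftedMap {E I K : Type*} [NormedAddCommGroup E] [NormedSpace ℂ E] (M : Atlas E I K)
    (u : ι → Fin n → ℤ) (S : Set (Set ι)) (c : ι → LineBundle Γ) where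
  v : I → E → V
  x : I → E → ι → ℂ
  holo_v : ∀ i, DifferentiableOn ℂ (v i) (M.U i)
  holo_x : ∀ i, DifferentiableOn ℂ (x i) (M.U i)
  mem : ∀ i, ∀ z ∈ M.U i, {l | x i z l = 0} ∈ S
  γ : K → E → Γ
  t : K → E → ι → ℂˣ
  t_mem : ∀ k, ∀ z ∈ M.D k, ∀ j, ∏ l, t k z l ^ u l j = 1
  eq_v : ∀ k, ∀ z ∈ M.D k, v (M.t k) (M.φ k z) = (γ k z : V ≃ᵃ[ℂ] V) (v (M.s k) z)
  eq_x : ∀ k, ∀ z ∈ M.D k, ∀ l,
    x (M.t k) (M.φ k z) l = t k z l * ((c l).e (γ k z) (v (M.s k) z) * x (M.s k) z l)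

/-- The line bundle `A` on `M` is isomorphic to the pullback `f^* O_Y(d; L)`, where `L` is the line
bundle with the factor of automorphy `e`; the isomorphism is the multiplication with the nowhere
vanishing functions `h i`. -/
def IsPullback {E I K : Type*} [NormedAddCommGroup E] [NormedSpace ℂ E] {M : Atlas E I K}
    {u : ι → Fin n → ℤ} {S : Set (Set ι)} {c : ι → LineBundle Γ} (f : LiftedMap M u S c)
    (A : LB M) (d : ι → ℤ) (e : Γ → V → ℂ) : Prop :=
  ∃ h : I → E → ℂ, (∀ i, DifferentiableOn ℂ (h i) (M.U i)) ∧ (∀ i, ∀ z ∈ M.U i, h i z ≠ 0) ∧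
    ∀ k, ∀ z ∈ M.D k, ev A k z * h (M.s k) z =
      h (M.t k) (M.φ k z) * (e (f.γ k z) (f.v (M.s k) z) * ∏ l, (f.t k z l : ℂ) ^ d l)

end Run7.h323.TQ
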