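import Pool.Agent.Run7.h323.TQ.Pow

/-!
# Abundance for log canonical pairs on toric bundles over quotients of complex tori
-/

set_option autoImplicit false
set_option linter.unusedSectionVars false

namespace Run7.h323.TQ

open Pool.Agent.W594.SYZ2 Pool.Agent.W594.SYZ2.TQ Pool.Agent.TH735.AQ MvPolynomial Q47.TB Q47.EB
  Q47.KN Q47.MM

variable {V : Type*} [NormedAddCommGroup V] [NormedSpace ℂ V] [FiniteDimensional ℂ V]
  {Γ : Subgroup (V ≃ᵃ[ℂ] V)} {ι : Type*} [Fintype ι] {n : ℕ}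

/-- The pair on the base which belongs to a lattice point in the polytope. -/
theorem base_pair {u : ι → Fin n → ℤ} {S : Set (Set ι)} (hS : IsSmoothFan u S)
    {c : ι → LineBundle Γ} {m : ℕ} (hm : 1 ≤ m) {ρ : V → ℂ} {d : ι → ℤ}
    {F : V → MvPolynomial ι ℂ} {L : LineBundle Γ}
    (hF : Q47.TB.IsLogPluricanonical u c m ρ d F L) {v₀ : V} (hlc : IsLogCanonical S m (F v₀))
    {K : ℕ} (hK : 1 ≤ K) {β : ι → ℕ}
    (hβ : LinEquiv u (fun i => (β i : ℤ)) (fun i => K * (d i - m))) :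
    ∃ K' : ℕ, 1 ≤ K' ∧ ∃ P : V → ℂ, Differentiable ℂ P ∧ (∃ v, P v ≠ 0) ∧
      Pool.Agent.TH735.AQ.IsLogPluricanonical (tw (L.pow K) c K' β) (m * K * K') ρ P := by
  have hmK : 1 ≤ m * K := Nat.mul_pos hm hK
  refine exists_base_pair hS (log_pow hF K) (F v₀ ^ K).support
    (fun α hα => ⟨v₀, mem_support_iff.1 hα⟩)
    (fun a ha => weights hS hmK (lc_pow hlc hK) a ha) (β := β) ?_
  have h1 : (fun i => (K : ℤ) * d i - ((m * K : ℕ) : ℤ)) = fun i => K * (d i - m) := by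
    funext i
    push_cast
    ring
  rw [h1]
  exact hβ

/-- A section which does not vanish at a point over which the line bundle of the monomial is generated
by global sections. -/
theorem gg_point {u : ι → Fin n → ℤ} {c : ι → LineBundle Γ} {d : ι → ℤ} {L : LineBundle Γ}
    {K K' N : ℕ} {β : ι → ℕ} (hβ : LinEquiv u (fun i => (β i : ℤ)) (fun i => K * d i))
    (hg : GG ((tw (L.pow K) c K' β).pow N)) (v : V) {x : ι → ℂ} (hx : ∀ i, x i = 0 → β i = 0) :
    ∃ G, IsSection u c (fun i => ((K * (K' * N) : ℕ) : ℤ) * d i) (L.pow (K * (K' * N))).e G ∧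
      eval x (G v) ≠ 0 := by
  obtain ⟨s, hs, hs0⟩ := hg v
  have h1 := isSection_monomial hβ hs
  refine ⟨fun v => monomial (Finsupp.equivFunOnFinite.symm fun i => K' * N * β i) (s v), ?_, ?_⟩
  · have h2 : (fun i => ((K' * N : ℕ) : ℤ) * (K * d i))
        = fun i => ((K * (K' * N) : ℕ) : ℤ) * d i := by
      funext i
      push_cast
      ring
    have h3 : (fun (γ : Γ) (v : V) => (L.pow K).e γ v ^ (K' * N)) = (L.pow (K * (K' * N))).e := by
      funext γ v
      change (L.e γ v ^ K) ^ (K' * N) = L.e γ v ^ (K * (K' * N))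
      rw [← pow_mul]
    rw [h2, h3] at h1
    exact h1
  · rw [eval_monomial, Finsupp.prod_fintype _ _ fun i => pow_zero _]
    refine mul_ne_zero hs0 (Finset.prod_ne_zero_iff.2 fun i _ => ?_)
    simp only [Finsupp.equivFunOnFinite_symm_apply_apply]
    by_cases h : x i = 0
    · rw [hx i h, mul_zero, pow_zero]
      exact one_ne_zero
    · exact pow_ne_zero _ h

theorem nef_smul {H : V → V → ℂ} {k : ℕ} (h : IsNefForm H) :
    IsNefForm fun v w => (k : ℂ) * H v w := by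
  intro v
  have h1 : ((k : ℂ) * H v v).re = k * (H v v).re := by simp
  rw [h1]
  exact mul_nonneg (Nat.cast_nonneg k) (h v)

theorem nef_of_smul {H : V → V → ℂ} {k : ℕ} (hk : 1 ≤ k)
    (h : IsNefForm fun v w => (k : ℂ) * H v w) : IsNefForm H := by
  intro v
  have h1 : ((k : ℂ) * H v v).re = k * (H v v).re := by simp
  have h2 := h v
  simp only [h1] at h2
  have h3 : (0 : ℝ) < k := by exact_mod_cast hk
  exact nonneg_of_mul_nonneg_right h2 h3

/-- The coefficients of a section are sections. -/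
theorem coeff_section {u : ι → Fin n → ℤ} {c : ι → LineBundle Γ} {d : ι → ℤ} {L : LineBundle Γ}
    {G : V → MvPolynomial ι ℂ} (hG : IsSection u c d L.e G) (α : ι →₀ ℕ) :
    (tw L c 1 fun i => α i).IsSection fun v => coeff α (G v) := by
  refine ⟨hG.holo α, fun γ v => ?_⟩
  have h1 := coeff_of_eval (t := fun i => (c i).e γ v) (p := G ((γ : V ≃ᵃ[ℂ] V) v)) (q := G v)
    (a := 1) (b := L.e γ v) (fun x => by rw [mul_one]; exact hG.eq γ v x) α
  change _ = L.e γ v ^ 1 * (∏ i, (c i).e γ v ^ (1 * α i))⁻¹ * coeff α (G v)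
  have h2 : (∏ i, (c i).e γ v ^ α i) ≠ 0 :=
    Finset.prod_ne_zero_iff.2 fun i _ => pow_ne_zero _ ((c i).ne_zero γ v)
  simp only [one_mul, pow_one]
  rw [mul_one] at h1
  field_simp
  linear_combination h1

/-- Semiample line bundles are nef. -/
theorem nef_of_semiample (hΓ : IsTorusQuotient Γ) {u : ι → Fin n → ℤ} {S : Set (Set ι)}
    {c : ι → LineBundle Γ} {Hc : ι → V → V → ℂ}
    (hc : ∀ i, IsChernForm (c i) (Hc i)) {d : ι → ℤ} {L : LineBundle Γ} {H : V → V → ℂ}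
    (hL : IsChernForm L H) (h : IsSemiample u S c d L) : IsNef u S Hc d H := by
  classical
  obtain ⟨N, hN, h⟩ := h
  rintro σ ⟨hσ, -⟩
  let x : ι → ℂ := fun i => if i ∈ σ then 0 else 1
  have hx : {i | x i = 0} = σ := by
    ext i
    simp only [Set.mem_ofPred_eq, x]
    split_ifs with h <;> simp [h]
  obtain ⟨G, hG, hG0⟩ := h 0 x (by rw [hx]; exact hσ)
  obtain ⟨α, hα, hα0⟩ : ∃ α ∈ (G 0).support, ∀ i ∈ σ, α i = 0 := by
    by_contra hcon
    push Not at hcon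
    refine hG0 ?_
    rw [eval_eq']
    refine Finset.sum_eq_zero fun α hα => ?_
    obtain ⟨i, hi, hi0⟩ := hcon α hα
    rw [Finset.prod_eq_zero (Finset.mem_univ i), mul_zero]
    simp only [x, if_pos hi]
    exact zero_pow hi0
  refine ⟨N, hN, fun i => α i, hα0, hG.deg 0 α hα, ?_⟩
  have h1 := nef_of_section hΓ (chern_tw (chern_pow hL N) hc 1 fun i => α i)
    (coeff_section hG α) ⟨0, mem_support_iff.1 hα⟩
  exact nef_of_smul (le_refl 1) h1

/-- In the unramified case it is enough that the line bundle is nef on the fibres. -/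
theorem nef_of_fibreNef (hΓ : IsTorusQuotient Γ) (hmir : ∀ v, ¬ OnMirror Γ v)
    {u : ι → Fin n → ℤ} {S : Set (Set ι)}
    (hS : IsSmoothFan u S) {c : ι → LineBundle Γ} {Hc : ι → V → V → ℂ}
    (hc : ∀ i, IsChernForm (c i) (Hc i)) {m : ℕ} (hm : 1 ≤ m) {ρ : V → ℂ}
    (hρ : IsRamification Γ ρ) {d : ι → ℤ} {F : V → MvPolynomial ι ℂ} {L : LineBundle Γ}
    (hF : Q47.TB.IsLogPluricanonical u c m ρ d F L) {H : V → V → ℂ} (hL : IsChernForm L H)
    {v₀ : V} (hlc : IsLogCanonical S m (F v₀)) (hn : IsFibreNef u S (fun i => d i - m)) :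
    IsNef u S Hc (fun i => d i - m) H := by
  intro σ hσ
  obtain ⟨K, hK, β, hβ0, hβ⟩ := hn σ hσ
  obtain ⟨K', hK', P, hP, ⟨v₁, hP0⟩, hlog⟩ := base_pair hS hm hF hlc hK hβ
  refine ⟨K, hK, β, hβ0, hβ, ?_⟩
  set M := m * K * K'
  have hρ0 : ∀ v, ρ v ≠ 0 := fun v h => hmir v ((hρ.zero_iff v).1 h)
  have := finite_Lin hΓ
  have : Fintype (Lin Γ) := Fintype.ofFinite _
  set N := Nat.card (Lin Γ) with hN
  have hN0 : 1 ≤ N := Nat.card_pos
  have hdet : ∀ γ : Γ, LinearMap.det ((γ : V ≃ᵃ[ℂ] V).linear : V →ₗ[ℂ] V) ^ N = 1 := by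
    intro γ
    have h1 : (⟨(γ : V ≃ᵃ[ℂ] V).linear, mem_Lin.2 ⟨_, γ.2, rfl⟩⟩ : Lin Γ) ^ N = 1 :=
      pow_card_eq_one'
    have h2 : ((γ : V ≃ᵃ[ℂ] V).linear) ^ N = 1 := by
      have := congrArg Subtype.val h1
      simpa using this
    have h3 : ((γ : V ≃ᵃ[ℂ] V).linear : V →ₗ[ℂ] V) ^ N = 1 := by
      have h4 := map_pow (LinearEquiv.automorphismGroup.toLinearMapMonoidHom (R := ℂ) (M := V))
        (γ : V ≃ᵃ[ℂ] V).linear N
      rw [h2, map_one] at h4
      exact h4.symm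
    rw [← map_pow, h3, map_one]
  set T := tw (L.pow K) c K' β
  have hsec : (T.pow N).IsSection fun v => (P v * (ρ v ^ M)⁻¹) ^ N := by
    refine ⟨(hP.mul ((hρ.holo.pow M).inv fun v => pow_ne_zero _ (hρ0 v))).pow N,
      fun γ v => ?_⟩
    have h1 := hlog γ v
    have h2 := hρ0 v
    have h3 := hρ0 ((γ : V ≃ᵃ[ℂ] V) v)
    have h4 : P ((γ : V ≃ᵃ[ℂ] V) v) * (ρ ((γ : V ≃ᵃ[ℂ] V) v) ^ M)⁻¹ =
        T.e γ v * LinearMap.det ((γ : V ≃ᵃ[ℂ] V).linear : V →ₗ[ℂ] V) ^ M *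
          (P v * (ρ v ^ M)⁻¹) := by
      field_simp
      linear_combination h1
    rw [h4, mul_pow, mul_pow, ← pow_mul, mul_comm M N, pow_mul, hdet, one_pow, mul_one]
    rfl
  have h5 := nef_of_section hΓ (chern_pow (chern_tw (chern_pow hL K) hc K' β) N) hsec
    ⟨v₁, pow_ne_zero _ (mul_ne_zero hP0 (inv_ne_zero (pow_ne_zero _ (hρ0 v₁))))⟩
  exact nef_of_smul hK' (nef_of_smul hN0 h5)

end Run7.h323.TQ
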