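import Pool.Agent.Q47.TB.Hull
import Pool.Agent.Run7.h323.TQ.Defs

/-!
# The maximal cones of a smooth complete fan
-/

set_option autoImplicit false

namespace Run7.h323.TQ

open Q47.TB

variable {ι : Type*} [Fintype ι] {n : ℕ}

omit [Fintype ι] in
theorem exists_max [Finite ι] {S : Set (Set ι)} {σ : Set ι} (hσ : σ ∈ S) :
    ∃ τ, IsMax S τ ∧ σ ⊆ τ := by
  have hfin : (S ∩ {τ | σ ⊆ τ}).Finite := Set.toFinite _
  obtain ⟨τ, hτ, hmax⟩ := hfin.exists_maximal ⟨σ, hσ, Set.Subset.refl σ⟩
  refine ⟨τ, ⟨hτ.1, fun τ' h1 h2 => ?_⟩, hτ.2⟩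
  exact subset_antisymm (hmax ⟨h1, hτ.2.trans h2⟩ h2) h2

/-- The rays of a maximal cone generate. -/
theorem max_span {u : ι → Fin n → ℤ} {S : Set (Set ι)} (hS : IsSmoothFan u S) {σ : Set ι}
    (hσ : IsMax S σ) {q : Fin n → ℤ} (hq : ∀ i ∈ σ, ∑ k, q k * u i k = 0) : q = 0 := by
  classical
  by_contra hne
  obtain ⟨k₀, hk₀⟩ : ∃ k, q k ≠ 0 := by
    by_contra h
    push Not at h
    exact hne (funext h)
  let e₀ : ι → ℕ := fun i => if i ∈ σ then 1 else 0
  let s : Fin n → ℤ := fun k => ∑ i, (e₀ i : ℤ) * u i k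
  let w : ℕ → Fin n → ℤ := fun N k => Pi.single (M := fun _ => ℤ) k₀ 1 k + N * s k
  choose a ha using fun N => (hS.rep (w N)).exists
  obtain ⟨N, N', hlt, hle⟩ := wellQuasiOrdered_le a
  let e : ι → ℕ := fun i => a N' i - a N i
  have he : ∀ i, (e i : ℤ) = (a N' i : ℤ) - a N i := fun i => by
    have h0 : a N i ≤ a N' i := hle i
    simp only [e]
    omega
  have h1 : ∀ k, ∑ i, (e i : ℤ) * u i k = ((N' - N : ℕ) : ℤ) * s k := by
    intro k
    have h2 := (ha N').2 k
    have h3 := (ha N).2 k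
    simp only [he, sub_mul, Finset.sum_sub_distrib, h2, h3, w]
    rw [Nat.cast_sub hlt.le]
    ring
  have hsupp : {i | e i ≠ 0} ⊆ {i | a N' i ≠ 0} := by
    intro i hi
    have hi' : e i ≠ 0 := hi
    change a N' i ≠ 0
    simp only [e] at hi'
    omega
  have h2 : {i | e i ≠ 0} ∈ S := hS.face _ (ha N').1 _ hsupp
  let e' : ι → ℕ := fun i => (N' - N) * e₀ i
  have h3 : {i | e' i ≠ 0} = σ := by
    ext i
    have hN : N' - N ≠ 0 := by omega
    simp only [Set.mem_ofPred_eq, e', e₀]
    split_ifs with h <;> simp [h, hN]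
  have h4 : ∀ k, ∑ i, (e' i : ℤ) * u i k = ((N' - N : ℕ) : ℤ) * s k := by
    intro k
    simp only [s, Finset.mul_sum, e']
    push_cast
    exact Finset.sum_congr rfl fun i _ => by ring
  have h5 : e = e' := (hS.rep fun k => ((N' - N : ℕ) : ℤ) * s k).unique ⟨h2, h1⟩
    ⟨by rw [h3]; exact hσ.1, h4⟩
  have h6 : {i | a N' i ≠ 0} = σ := by
    refine hσ.2 _ (ha N').1 ?_
    rw [← h3, ← h5]
    exact hsupp
  have h7 : ∑ k, q k * w N' k = 0 := by
    calc ∑ k, q k * w N' k = ∑ k, ∑ i, (a N' i : ℤ) * (q k * u i k) := by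
          refine Finset.sum_congr rfl fun k _ => ?_
          rw [← (ha N').2 k, Finset.mul_sum]
          exact Finset.sum_congr rfl fun i _ => by ring
      _ = ∑ i, (a N' i : ℤ) * ∑ k, q k * u i k := by
          rw [Finset.sum_comm]
          exact Finset.sum_congr rfl fun i _ => (Finset.mul_sum _ _ _).symm
      _ = 0 := by
          refine Finset.sum_eq_zero fun i _ => ?_
          by_cases h : i ∈ σ
          · rw [hq i h, mul_zero]
          · have h8 : a N' i = 0 := by
              by_contra h9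
              exact h (h6 ▸ (show i ∈ {i | a N' i ≠ 0} from h9))
            rw [h8]
            simp
  have h8 : ∑ k, q k * s k = 0 := by
    calc ∑ k, q k * s k = ∑ i, (e₀ i : ℤ) * ∑ k, q k * u i k := by
          simp only [s, Finset.mul_sum]
          rw [Finset.sum_comm]
          exact Finset.sum_congr rfl fun i _ => Finset.sum_congr rfl fun k _ => by ring
      _ = 0 := by
          refine Finset.sum_eq_zero fun i _ => ?_
          by_cases h : i ∈ σ
          · rw [hq i h, mul_zero]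
          · simp [e₀, h]
  have h9 : ∑ k, q k * w N' k = q k₀ + N' * ∑ k, q k * s k := by
    simp only [w, mul_add, Finset.sum_add_distrib, Finset.mul_sum]
    congr 1
    · simp [Pi.single_apply]
    · exact Finset.sum_congr rfl fun k _ => by ring
  rw [h9, h8, mul_zero, add_zero] at h7
  exact hk₀ h7

/-- The divisors in multiples of a class which are zero along a maximal cone are proportional. -/
theorem max_unique {u : ι → Fin n → ℤ} {S : Set (Set ι)} (hS : IsSmoothFan u S) {σ : Set ι}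
    (hσ : IsMax S σ) {d : ι → ℤ} {K K' : ℕ} {β β' : ι → ℕ} (h0 : ∀ i ∈ σ, β i = 0)
    (h0' : ∀ i ∈ σ, β' i = 0) (h : LinEquiv u (fun i => (β i : ℤ)) (fun i => K * d i))
    (h' : LinEquiv u (fun i => (β' i : ℤ)) (fun i => K' * d i)) (i : ι) :
    K' * β i = K * β' i := by
  obtain ⟨p, hp⟩ := h
  obtain ⟨p', hp'⟩ := h'
  have h1 : ∀ i, (K' : ℤ) * β i - K * β' i = ∑ k, (K' * p k - K * p' k) * u i k := by
    intro i
    have e1 : (β i : ℤ) = K * d i + ∑ k, p k * u i k := hp i
    have e2 : (β' i : ℤ) = K' * d i + ∑ k, p' k * u i k := hp' i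
    rw [e1, e2]
    simp only [sub_mul, Finset.sum_sub_distrib, mul_assoc, ← Finset.mul_sum]
    ring
  have h2 := max_span hS hσ (q := fun k => K' * p k - K * p' k) (fun i hi => by
    rw [← h1, h0 i hi, h0' i hi]
    simp)
  have h3 := h1 i
  have h4 : ∑ k, ((K' : ℤ) * p k - K * p' k) * u i k = 0 := by
    refine Finset.sum_eq_zero fun k _ => ?_
    have := congrFun h2 k
    simp only [Pi.zero_apply] at this
    rw [this, zero_mul]
  rw [h4] at h3
  have h5 : ((K' * β i : ℕ) : ℤ) = ((K * β' i : ℕ) : ℤ) := by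
    push_cast
    linarith
  exact_mod_cast h5

end Run7.h323.TQ
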