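import Pool.Agent.Run7.h323.TQ.Main
import Pool.Agent.Run7.h323.TQ.Map
import Pool.Agent.Run7.h323.TQ.Fan

/-!
# Effective abundance for log canonical pairs on toric bundles over quotients of complex tori
-/

set_option autoImplicit false
set_option linter.unusedSectionVars false

namespace Run7.h323.TQ

open Pool.Agent.W594.SYZ2 Pool.Agent.W594.SYZ2.TQ Pool.Agent.TH735.AQ MvPolynomial Q47.TB Q47.EB
  Q47.KN Q47.MM

section comb

variable {V : Type*} [NormedAddCommGroup V] [NormedSpace ℂ V]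
  {Γ : Subgroup (V ≃ᵃ[ℂ] V)} {ι : Type*} [Fintype ι] {n : ℕ}

/-- The product of powers of the coefficients defines a log pluricanonical divisor on the base (with
given exponents; compare `Q47.TB.exists_base_pair`). -/
theorem log_of_comb {u : ι → Fin n → ℤ} {c : ι → LineBundle Γ} {m : ℕ} {ρ : V → ℂ} {d : ι → ℤ}
    {F : V → MvPolynomial ι ℂ} {L : LineBundle Γ}
    (hF : Q47.TB.IsLogPluricanonical u c m ρ d F L)
    (T : Finset (ι →₀ ℕ)) {β : ι → ℕ} {b : (ι →₀ ℕ) → ℕ}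
    (hb : ∀ i, ∑ α ∈ T, b α * α i = (∑ α ∈ T, b α) * (m + β i)) :
    Pool.Agent.TH735.AQ.IsLogPluricanonical (tw L c (∑ α ∈ T, b α) β) (m * ∑ α ∈ T, b α) ρ
      fun v => ∏ α ∈ T, coeff α (F v) ^ b α := by
  classical
  have hrel : ∀ α ∈ T, ∀ (γ : Γ) (v : V),
      coeff α (F ((γ : V ≃ᵃ[ℂ] V) v)) * (∏ i, (c i).e γ v ^ α i) * ρ v ^ m
        = (L.e γ v * (LinearMap.det ((γ : V ≃ᵃ[ℂ] V).linear : V →ₗ[ℂ] V) *
          ∏ i, (c i).e γ v) ^ m * ρ ((γ : V ≃ᵃ[ℂ] V) v) ^ m) * coeff α (F v) := by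
    intro α _ γ v
    refine coeff_of_eval (fun x => ?_) α
    rw [hF.eq γ v x]
    ring
  intro γ v
  set K := ∑ α ∈ T, b α with hK
  set D := LinearMap.det ((γ : V ≃ᵃ[ℂ] V).linear : V →ₗ[ℂ] V) with hD
  set Q := ∏ i, (c i).e γ v with hQ
  have hQ0 : Q ≠ 0 := Finset.prod_ne_zero_iff.2 fun i _ => (c i).ne_zero γ v
  have hprod : (∏ α ∈ T, coeff α (F ((γ : V ≃ᵃ[ℂ] V) v)) ^ b α) *
      (∏ α ∈ T, (∏ i, (c i).e γ v ^ α i) ^ b α) * (ρ v ^ m) ^ K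
      = (L.e γ v * (D * Q) ^ m * ρ ((γ : V ≃ᵃ[ℂ] V) v) ^ m) ^ K *
        ∏ α ∈ T, coeff α (F v) ^ b α := by
    rw [hK, ← Finset.prod_pow_eq_pow_sum, ← Finset.prod_pow_eq_pow_sum, ← Finset.prod_mul_distrib,
      ← Finset.prod_mul_distrib, ← Finset.prod_mul_distrib]
    refine Finset.prod_congr rfl fun α hα => ?_
    rw [← mul_pow, ← mul_pow, hrel α hα γ v, mul_pow]
  have hpow : (∏ α ∈ T, (∏ i, (c i).e γ v ^ α i) ^ b α)
      = Q ^ (m * K) * ∏ i, (c i).e γ v ^ (K * β i) := by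
    have h1 : ∀ α ∈ T, (∏ i, (c i).e γ v ^ α i) ^ b α = ∏ i, (c i).e γ v ^ (b α * α i) := by
      intro α _
      rw [← Finset.prod_pow]
      exact Finset.prod_congr rfl fun i _ => by rw [← pow_mul, mul_comm]
    rw [Finset.prod_congr rfl h1, Finset.prod_comm, hQ, ← Finset.prod_pow,
      ← Finset.prod_mul_distrib]
    refine Finset.prod_congr rfl fun i _ => ?_
    rw [Finset.prod_pow_eq_pow_sum, hb i, ← pow_add]
    congr 1
    ring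
  rw [hpow] at hprod
  change (∏ α ∈ T, coeff α (F ((γ : V ≃ᵃ[ℂ] V) v)) ^ b α) * ρ v ^ (m * K)
    = L.e γ v ^ K * (∏ i, (c i).e γ v ^ (K * β i))⁻¹ * D ^ (m * K) *
      (∏ α ∈ T, coeff α (F v) ^ b α) * ρ ((γ : V ≃ᵃ[ℂ] V) v) ^ (m * K)
  have hW0 : (∏ i, (c i).e γ v ^ (K * β i)) ≠ 0 :=
    Finset.prod_ne_zero_iff.2 fun i _ => pow_ne_zero _ ((c i).ne_zero γ v)
  have hQ1 : Q ^ (m * K) ≠ 0 := pow_ne_zero _ hQ0
  set W := ∏ i, (c i).e γ v ^ (K * β i)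
  set A := ∏ α ∈ T, coeff α (F ((γ : V ≃ᵃ[ℂ] V) v)) ^ b α
  set B := ∏ α ∈ T, coeff α (F v) ^ b α
  have h3 : (A * ρ v ^ (m * K) * W) * Q ^ (m * K)
      = (L.e γ v ^ K * D ^ (m * K) * B * ρ ((γ : V ≃ᵃ[ℂ] V) v) ^ (m * K)) * Q ^ (m * K) := by
    have e1 : (ρ v ^ m) ^ K = ρ v ^ (m * K) := (pow_mul _ _ _).symm
    have e2 : (L.e γ v * (D * Q) ^ m * ρ ((γ : V ≃ᵃ[ℂ] V) v) ^ m) ^ K
        = L.e γ v ^ K * (D ^ (m * K) * Q ^ (m * K)) * ρ ((γ : V ≃ᵃ[ℂ] V) v) ^ (m * K) := by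
      rw [mul_pow, mul_pow, ← pow_mul, ← pow_mul, mul_pow]
    rw [e1, e2] at hprod
    linear_combination hprod
  have h4 := mul_right_cancel₀ hQ1 h3
  field_simp
  linear_combination h4

end comb

/-- A pair on a toric bundle over a quotient of a complex torus of dimension at most `g`. -/
structure Pr {ι : Type} [Fintype ι] {n : ℕ} (u : ι → Fin n → ℤ) (S : Set (Set ι)) (m : ℕ)
    (d : ι → ℤ) (g : ℕ) where
  V : Type
  [i1 : NormedAddCommGroup V]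
  [i2 : NormedSpace ℂ V]
  [i3 : FiniteDimensional ℂ V]
  dim : Module.finrank ℂ V ≤ g
  Γ : Subgroup (V ≃ᵃ[ℂ] V)
  hΓ : IsTorusQuotient Γ
  c : ι → LineBundle Γ
  Hc : ι → V → V → ℂ
  hc : ∀ i, IsChernForm (c i) (Hc i)
  ρ : V → ℂ
  hρ : IsRamification Γ ρ
  F : V → MvPolynomial ι ℂ
  L : LineBundle Γ
  hF : Q47.TB.IsLogPluricanonical u c m ρ d F L
  H : V → V → ℂ
  hL : IsChernForm L H
  v₀ : V
  hlc : IsLogCanonical S m (F v₀)

attribute [instance] Pr.i1 Pr.i2 Pr.i3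

theorem expo_dvd {a b : ℕ} (h : a ≤ b) : expo a ∣ expo b :=
  Nat.mul_dvd_mul (dvd_refl 4) (pow_dvd_pow_of_dvd (mink_dvd h) 3)

variable {ι : Type} [Fintype ι] {n : ℕ} {u : ι → Fin n → ℤ} {S : Set (Set ι)} {m : ℕ} {d : ι → ℤ}
  {g : ℕ}

/-- The power `N` of `O_Y(m (K_Y + Δ))` has a section which is not zero at `(v, x)`. -/
def Pr.Gen (P : Pr u S m d g) (N : ℕ) (v : P.V) (x : ι → ℂ) : Prop :=
  ∃ G, IsSection u P.c (fun i => N * (d i - m)) (P.L.pow N).e G ∧ eval x (G v) ≠ 0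

theorem Pr.Gen.dvd {P : Pr u S m d g} {N N' : ℕ} {v : P.V} {x : ι → ℂ} (h : P.Gen N v x)
    (hd : N ∣ N') : P.Gen N' v x :=
  gg_mul (d := fun i => d i - m) h hd

theorem step1 (hS : IsSmoothFan u S) (hm : 1 ≤ m) (g : ℕ) {K : ℕ} (hK : 1 ≤ K) {β : ι → ℕ}
    (hβ : LinEquiv u (fun i => (β i : ℤ)) (fun i => K * (d i - m))) (T : Finset (ι →₀ ℕ)) :
    ∃ N : ℕ, 1 ≤ N ∧ ∀ P : Pr u S m d g, (P.F P.v₀ ^ K).support = T →
      IsNefForm (fun v w => K * P.H v w - ∑ i, (β i : ℂ) * P.Hc i v w) →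
      ∀ (v : P.V) (x : ι → ℂ), (∀ i, x i = 0 → β i = 0) → P.Gen N v x := by
  classical
  have hmK : 1 ≤ m * K := Nat.mul_pos hm hK
  have h1 : (fun i => (K : ℤ) * d i - ((m * K : ℕ) : ℤ)) = fun i => K * (d i - m) := by
    funext i
    push_cast
    ring
  by_cases h : ∃ b : (ι →₀ ℕ) → ℕ, 1 ≤ ∑ α ∈ T, b α ∧
      ∀ i, ∑ α ∈ T, b α * α i = (∑ α ∈ T, b α) * (m * K + β i)
  · obtain ⟨b, hb1, hb⟩ := h
    refine ⟨K * ((∑ α ∈ T, b α) * expo g),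
      Nat.mul_pos hK (Nat.mul_pos hb1 (expo_pos _)), fun P hT hn v x hx => ?_⟩
    have hlog := log_of_comb (log_pow P.hF K) T hb
    obtain ⟨hH, G, hG⟩ := chern_tw (chern_pow P.hL K) P.hc (∑ α ∈ T, b α) β
    have hhol : ∀ α, Differentiable ℂ fun v => coeff α (P.F v ^ K) := coeff_pow_diff P.hF.holo K
    have hP : Differentiable ℂ fun v => ∏ α ∈ T, coeff α (P.F v ^ K) ^ b α :=
      prod_diff T (fun α v => coeff α (P.F v ^ K) ^ b α) fun α => (hhol α).pow _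
    have hP0 : ∃ v, ∏ α ∈ T, coeff α (P.F v ^ K) ^ b α ≠ 0 := by
      refine ⟨P.v₀, Finset.prod_ne_zero_iff.2 fun α hα => pow_ne_zero _ ?_⟩
      rw [← hT] at hα
      exact mem_support_iff.1 hα
    have hg := gg_of_pair P.hΓ hH hG P.hρ hP hP0 hlog (nef_smul hn)
    have h2 : P.Gen (K * ((∑ α ∈ T, b α) * expo (Module.finrank ℂ P.V))) v x :=
      gg_point (d := fun i => d i - m) hβ hg v hx
    exact h2.dvd (Nat.mul_dvd_mul (dvd_refl _) (Nat.mul_dvd_mul (dvd_refl _) (expo_dvd P.dim)))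
  · refine ⟨1, le_refl 1, fun P hT _ _ _ _ => absurd ?_ h⟩
    refine exists_comb hS T (d := fun i => K * d i) (fun α hα => ?_) (m := m * K) (β := β) ?_
      fun a ha => ?_
    · rw [← hT] at hα
      exact HasClass.pow (P.hF.deg P.v₀) K α hα
    · rw [h1]
      exact hβ
    · rw [← hT]
      exact weights hS hmK (lc_pow P.hlc hK) a ha

theorem step2 (hS : IsSmoothFan u S) (hm : 1 ≤ m) (g : ℕ) {σ : Set ι} (hσ : IsMax S σ) :
    ∃ N : ℕ, 1 ≤ N ∧ ∀ P : Pr u S m d g,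
      (∃ K : ℕ, 1 ≤ K ∧ ∃ β : ι → ℕ, (∀ i ∈ σ, β i = 0) ∧
        LinEquiv u (fun i => (β i : ℤ)) (fun i => K * (d i - m)) ∧
        IsNefForm fun v w => K * P.H v w - ∑ i, (β i : ℂ) * P.Hc i v w) →
      ∀ (v : P.V) (x : ι → ℂ), {i | x i = 0} ⊆ σ → P.Gen N v x := by
  classical
  by_cases h : ∃ K : ℕ, 1 ≤ K ∧ ∃ β : ι → ℕ, (∀ i ∈ σ, β i = 0) ∧
      LinEquiv u (fun i => (β i : ℤ)) (fun i => K * (d i - m))
  · obtain ⟨K₀, hK₀, β₀, h0, hβ₀⟩ := h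
    choose N hN1 hN using fun T : Finset (ι →₀ ℕ) => step1 hS hm g hK₀ hβ₀ T
    set C := (finite_class hS fun i => K₀ * d i).toFinset.powerset with hC
    refine ⟨∏ T ∈ C, N T, Nat.pos_of_ne_zero (Finset.prod_ne_zero_iff.2 fun T _ =>
      (Nat.pos_iff_ne_zero.1 (hN1 T))), fun P hP v x hx => ?_⟩
    obtain ⟨K, hK, β, h1, hβ, hn⟩ := hP
    have hn' : IsNefForm fun v w => K₀ * P.H v w - ∑ i, (β₀ i : ℂ) * P.Hc i v w := by
      refine nef_of_smul hK ?_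
      have h2 := nef_smul (k := K₀) hn
      have h3 : ∀ i, (K₀ : ℂ) * β i = K * β₀ i := fun i => by
        exact_mod_cast max_unique hS hσ h1 h0 hβ hβ₀ i
      have h4 : (fun v w => (K₀ : ℂ) * (K * P.H v w - ∑ i, (β i : ℂ) * P.Hc i v w))
          = fun v w => (K : ℂ) * (K₀ * P.H v w - ∑ i, (β₀ i : ℂ) * P.Hc i v w) := by
        funext v w
        simp only [mul_sub, Finset.mul_sum, ← mul_assoc, h3, mul_comm (K₀ : ℂ) (K : ℂ)]
      rwa [h4] at h2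
    have h5 : P.Gen (N (P.F P.v₀ ^ K₀).support) v x :=
      hN _ P rfl hn' v x fun i hi => h0 i (hx hi)
    refine h5.dvd (Finset.dvd_prod_of_mem N ?_)
    rw [hC, Finset.mem_powerset]
    intro α hα
    rw [Set.Finite.mem_toFinset]
    exact HasClass.pow (P.hF.deg P.v₀) K₀ α hα
  · refine ⟨1, le_refl 1, fun P hP _ _ _ => absurd ?_ h⟩
    obtain ⟨K, hK, β, h1, hβ, -⟩ := hP
    exact ⟨K, hK, β, h1, hβ⟩

/-- Effective abundance. -/
theorem effective (hS : IsSmoothFan u S) (hm : 1 ≤ m) (d : ι → ℤ) (g : ℕ) :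
    ∃ N : ℕ, 1 ≤ N ∧ ∀ P : Pr u S m d g, IsNef u S P.Hc (fun i => d i - m) P.H →
      IsGG u S P.c (fun i => N * (d i - m)) fun γ v => P.L.e γ v ^ N := by
  classical
  have h1 : ∀ σ : Set ι, ∃ N : ℕ, 1 ≤ N ∧ (IsMax S σ → ∀ P : Pr u S m d g,
      IsNef u S P.Hc (fun i => d i - m) P.H →
      ∀ (v : P.V) (x : ι → ℂ), {i | x i = 0} ⊆ σ → P.Gen N v x) := by
    intro σ
    by_cases h : IsMax S σ
    · obtain ⟨N, hN, h2⟩ := step2 (d := d) hS hm g h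
      exact ⟨N, hN, fun _ P hP => h2 P (hP σ h)⟩
    · exact ⟨1, le_refl 1, fun h' => absurd h' h⟩
  choose N hN1 hN using h1
  have : Fintype (Set ι) := Fintype.ofFinite _
  refine ⟨∏ σ, N σ, Nat.pos_of_ne_zero (Finset.prod_ne_zero_iff.2 fun σ _ =>
    (Nat.pos_iff_ne_zero.1 (hN1 σ))), fun P hP v x hx => ?_⟩
  obtain ⟨σ, hσ, hsub⟩ := exists_max hx
  exact (hN σ hσ P hP v x hsub).dvd (Finset.dvd_prod_of_mem N (Finset.mem_univ _))

end Run7.h323.TQ
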