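import Pool.Agent.Run7.h323.TQ.Wt
import Pool.Agent.Run7.h323.TQ.Defs
import Pool.Agent.Q47.TB.Coef

/-!
# Powers of sections and of log pluricanonical data
-/

set_option autoImplicit false
set_option linter.unusedSectionVars false

namespace Run7.h323.TQ

open Pool.Agent.W594.SYZ2 Pool.Agent.TH735.AQ MvPolynomial Q47.TB Q47.EB Q47.KN

variable {V : Type*} [NormedAddCommGroup V] [NormedSpace ℂ V] {Γ : Subgroup (V ≃ᵃ[ℂ] V)}
  {ι : Type*} [Fintype ι] {n : ℕ}

theorem linEquiv_add {u : ι → Fin n → ℤ} {a b c d : ι → ℤ} (h1 : LinEquiv u a b)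
    (h2 : LinEquiv u c d) : LinEquiv u (fun i => a i + c i) (fun i => b i + d i) := by
  obtain ⟨p, hp⟩ := h1
  obtain ⟨q, hq⟩ := h2
  refine ⟨fun k => p k + q k, fun i => ?_⟩
  simp only
  rw [hp, hq]
  simp only [add_mul, Finset.sum_add_distrib]
  ring

theorem linEquiv_zero (u : ι → Fin n → ℤ) (a : ι → ℤ) : LinEquiv u a a :=
  ⟨fun _ => 0, fun i => by simp⟩

theorem linEquiv_mul {u : ι → Fin n → ℤ} {a b : ι → ℤ} (h : LinEquiv u a b) (K : ℤ) :
    LinEquiv u (fun i => K * a i) (fun i => K * b i) := by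
  obtain ⟨p, hp⟩ := h
  refine ⟨fun k => K * p k, fun i => ?_⟩
  simp only
  rw [hp, mul_add, Finset.mul_sum]
  simp only [mul_assoc]

/-- The class of a polynomial. -/
def HasClass (u : ι → Fin n → ℤ) (p : MvPolynomial ι ℂ) (d : ι → ℤ) : Prop :=
  ∀ α ∈ p.support, LinEquiv u (fun i => (α i : ℤ)) d

theorem HasClass.mul {u : ι → Fin n → ℤ} {p q : MvPolynomial ι ℂ} {d e : ι → ℤ}
    (hp : HasClass u p d) (hq : HasClass u q e) : HasClass u (p * q) (fun i => d i + e i) := by
  classical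
  intro α hα
  obtain ⟨a, ha, b, hb, rfl⟩ := Finset.mem_add.1 (support_mul p q hα)
  have := linEquiv_add (hp a ha) (hq b hb)
  simpa using this

theorem HasClass.pow {u : ι → Fin n → ℤ} {p : MvPolynomial ι ℂ} {d : ι → ℤ}
    (hp : HasClass u p d) (K : ℕ) : HasClass u (p ^ K) (fun i => K * d i) := by
  classical
  induction K with
  | zero =>
    intro α hα
    rw [pow_zero] at hα
    have h1 : α = 0 := by
      rw [mem_support_iff, coeff_one] at hα
      by_contra h
      exact hα (if_neg fun h' => h h'.symm)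
    subst h1
    simpa using linEquiv_zero u fun _ => 0
  | succ K ih =>
    rw [pow_succ]
    have := ih.mul hp
    have h1 : (fun i => (K : ℤ) * d i + d i) = fun i => ((K + 1 : ℕ) : ℤ) * d i := by
      funext i
      push_cast
      ring
    rwa [h1] at this

theorem coeff_mul_diff {F G : V → MvPolynomial ι ℂ}
    (hF : ∀ α, Differentiable ℂ fun v => coeff α (F v))
    (hG : ∀ α, Differentiable ℂ fun v => coeff α (G v)) (α : ι →₀ ℕ) :
    Differentiable ℂ fun v => coeff α (F v * G v) := by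
  classical
  simp only [coeff_mul]
  exact Differentiable.fun_sum fun p _ => (hF _).mul (hG _)

theorem coeff_pow_diff {F : V → MvPolynomial ι ℂ}
    (hF : ∀ α, Differentiable ℂ fun v => coeff α (F v)) (K : ℕ) (α : ι →₀ ℕ) :
    Differentiable ℂ fun v => coeff α (F v ^ K) := by
  induction K generalizing α with
  | zero =>
    simp only [pow_zero]
    exact differentiable_const _
  | succ K ih =>
    simp only [pow_succ]
    exact coeff_mul_diff ih hF α

/-- Powers of sections. -/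
theorem section_pow {u : ι → Fin n → ℤ} {c : ι → LineBundle Γ} {d : ι → ℤ} {L : LineBundle Γ}
    {G : V → MvPolynomial ι ℂ} (h : IsSection u c d L.e G) (K : ℕ) :
    IsSection u c (fun i => K * d i) (L.pow K).e (fun v => G v ^ K) := by
  refine ⟨coeff_pow_diff h.holo K, fun v => HasClass.pow (h.deg v) K, fun γ v x => ?_⟩
  rw [map_pow, map_pow, h.eq, mul_pow]
  rfl

theorem gg_mul {u : ι → Fin n → ℤ} {c : ι → LineBundle Γ} {d : ι → ℤ}
    {L : LineBundle Γ} {v : V} {x : ι → ℂ} {k m : ℕ}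
    (h : ∃ G, IsSection u c (fun i => k * d i) (L.pow k).e G ∧ eval x (G v) ≠ 0) (hd : k ∣ m) :
    ∃ G, IsSection u c (fun i => m * d i) (L.pow m).e G ∧ eval x (G v) ≠ 0 := by
  obtain ⟨j, rfl⟩ := hd
  obtain ⟨G, hG, h0⟩ := h
  refine ⟨fun v => G v ^ j, ?_, by rw [map_pow]; exact pow_ne_zero _ h0⟩
  have h1 := section_pow hG j
  have h2 : (fun i => (j : ℤ) * (k * d i)) = fun i => ((k * j : ℕ) : ℤ) * d i := by
    funext i
    push_cast
    ring
  have h3 : ((L.pow k).pow j).e = (L.pow (k * j)).e := by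
    funext γ v
    change (L.e γ v ^ k) ^ j = L.e γ v ^ (k * j)
    rw [pow_mul]
  rwa [h2, h3] at h1

theorem gg_dvd {u : ι → Fin n → ℤ} {S : Set (Set ι)} {c : ι → LineBundle Γ} {d : ι → ℤ}
    {L : LineBundle Γ} {k m : ℕ} (h : IsGG u S c (fun i => k * d i) (L.pow k).e) (hd : k ∣ m) :
    IsGG u S c (fun i => m * d i) (L.pow m).e :=
  fun v x hx => gg_mul (h v x hx) hd

/-- Powers of log pluricanonical data. -/
theorem log_pow {u : ι → Fin n → ℤ} {c : ι → LineBundle Γ} {m : ℕ} {ρ : V → ℂ} {d : ι → ℤ}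
    {F : V → MvPolynomial ι ℂ} {L : LineBundle Γ}
    (hF : Q47.TB.IsLogPluricanonical u c m ρ d F L) (K : ℕ) :
    Q47.TB.IsLogPluricanonical u c (m * K) ρ (fun i => K * d i) (fun v => F v ^ K) (L.pow K) := by
  refine ⟨coeff_pow_diff hF.holo K, fun v => HasClass.pow (hF.deg v) K, fun γ v x => ?_⟩
  have h1 := congrArg (· ^ K) (hF.eq γ v x)
  simp only [mul_pow, ← pow_mul] at h1
  rw [map_pow, map_pow]
  change _ = L.e γ v ^ K * _ * _ * _
  rw [h1]
  ring

theorem lc_pow {S : Set (Set ι)} {m : ℕ} {f : MvPolynomial ι ℂ} (hf : IsLogCanonical S m f)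
    {K : ℕ} (hK : 1 ≤ K) : IsLogCanonical S (m * K) (f ^ K) := by
  intro x hx c hc
  obtain ⟨r, hr, h⟩ := hf x hx c hc
  refine ⟨r, hr, ?_⟩
  have hK0 : (K : ℝ) ≠ 0 := by
    have : (0 : ℝ) < K := by exact_mod_cast hK
    exact this.ne'
  have h1 : (fun y : ι → ℂ => ‖eval y (f ^ K)‖ₑ ^ (-(2 * c / ((m * K : ℕ) : ℝ)))) =
      fun y => ‖eval y f‖ₑ ^ (-(2 * c / m)) := by
    funext y
    rw [map_pow, enorm_pow, ← ENNReal.rpow_natCast, ← ENNReal.rpow_mul]
    congr 1
    push_cast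
    by_cases hm : (m : ℝ) = 0
    · rw [hm]
      simp
    · field_simp
  rw [h1]
  exact h

end Run7.h323.TQ
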