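import Pool.Agent.Q47.TB.Hull

/-!
# Log canonical polynomials on toric varieties: the inequality for the weights
-/

set_option autoImplicit false

namespace Run7.h323.TQ

open Q47.TB MvPolynomial MeasureTheory Filter Topology

variable {ι : Type*} [Fintype ι] {n : ℕ}

/-- A constant for the bound of the polynomial on small polydiscs. -/
noncomputable def bd (f : MvPolynomial ι ℂ) : ℝ :=
  ∑ α ∈ f.support, ‖coeff α f‖ * ∏ i, (2 : ℝ) ^ α i

theorem bd_pos {f : MvPolynomial ι ℂ} (hf : f ≠ 0) : 0 < bd f := by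
  refine Finset.sum_pos (fun α hα => ?_) (support_nonempty.2 hf)
  have h1 : 0 < ‖coeff α f‖ := norm_pos_iff.2 (mem_support_iff.1 hα)
  positivity

/-- The bound on a polydisc with weights. -/
theorem eval_le {f : MvPolynomial ι ℂ} {a : ι → ℕ} {w : ℕ}
    (hw : ∀ α ∈ f.support, w ≤ ∑ i, a i * α i) {t : ℝ} (ht0 : 0 ≤ t) (ht1 : t ≤ 1) {y : ι → ℂ}
    (hy : ∀ i, ‖y i‖ ≤ 2 * t ^ a i) : ‖eval y f‖ ≤ bd f * t ^ w := by
  rw [eval_eq', bd, Finset.sum_mul]
  refine (norm_sum_le _ _).trans (Finset.sum_le_sum fun α hα => ?_)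
  rw [norm_mul, norm_prod, mul_assoc]
  refine mul_le_mul_of_nonneg_left ?_ (norm_nonneg _)
  have h1 : ∏ i, ‖y i ^ α i‖ ≤ ∏ i, (2 * t ^ a i) ^ α i := by
    refine Finset.prod_le_prod (fun i _ => norm_nonneg _) fun i _ => ?_
    rw [norm_pow]
    exact pow_le_pow_left₀ (norm_nonneg _) (hy i) _
  refine h1.trans ?_
  simp only [mul_pow, Finset.prod_mul_distrib]
  refine mul_le_mul_of_nonneg_left ?_ (Finset.prod_nonneg fun i _ => by positivity)
  have h2 : ∏ i, (t ^ a i) ^ α i = t ^ ∑ i, a i * α i := by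
    rw [← Finset.prod_pow_eq_pow_sum]
    exact Finset.prod_congr rfl fun i _ => by rw [← pow_mul]
  rw [h2]
  exact pow_le_pow_of_le_one ht0 ht1 (hw α hα)

theorem rpow_anti {x y : ENNReal} {e : ℝ} (he : e ≤ 0) (h : x ≤ y) : y ^ e ≤ x ^ e := by
  have h1 : e = -(-e) := by ring
  rw [h1, ENNReal.rpow_neg y, ENNReal.rpow_neg x]
  exact ENNReal.inv_le_inv.2 (ENNReal.rpow_le_rpow h (by linarith))

/-- The small polydiscs with weights. -/
def box (x : ι → ℂ) (a : ι → ℕ) (r t : ℝ) : Set (ι → ℂ) :=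
  Set.univ.pi fun i => Metric.ball (x i) (r * t ^ a i)

theorem volume_box (x : ι → ℂ) (a : ι → ℕ) {r t : ℝ} (hr : 0 < r) (ht : 0 < t) :
    volume (box x a r t) =
      ENNReal.ofReal ((∏ _i : ι, (r ^ 2 * Real.pi)) * t ^ (2 * ∑ i, a i)) := by
  rw [box, volume_pi_pi]
  have h1 : ∀ i, volume (Metric.ball (x i) (r * t ^ a i)) =
      ENNReal.ofReal ((r ^ 2 * Real.pi) * (t ^ (2 * a i))) := by
    intro i
    rw [Complex.volume_ball, ← ENNReal.ofReal_pow (by positivity)]
    have h2 : ((NNReal.pi : NNReal) : ENNReal) = ENNReal.ofReal Real.pi := by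
      rw [ENNReal.ofReal, ← NNReal.coe_real_pi, Real.toNNReal_coe]
    rw [h2, ← ENNReal.ofReal_mul (by positivity)]
    congr 1
    rw [mul_pow, ← pow_mul, mul_comm (a i) 2]
    ring
  simp only [h1]
  rw [← ENNReal.ofReal_prod_of_nonneg fun i _ => by positivity]
  congr 1
  rw [Finset.prod_mul_distrib, Finset.prod_pow_eq_pow_sum, Finset.mul_sum]

theorem weights {u : ι → Fin n → ℤ} {S : Set (Set ι)} (hS : IsSmoothFan u S) {m : ℕ} (hm : 1 ≤ m)
    {f : MvPolynomial ι ℂ} (hf : IsLogCanonical S m f) (a : ι → ℕ) (ha : {i | a i ≠ 0} ∈ S) :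
    ∃ α ∈ f.support, ∑ i, a i * α i ≤ m * ∑ i, a i := by
  classical
  have hm' : (0 : ℝ) < m := by exact_mod_cast hm
  have hf0 : f ≠ 0 := by
    rintro rfl
    have h1 : {i : ι | (fun _ => (1 : ℂ)) i = 0} ∈ S := by
      have : {i : ι | (fun _ : ι => (1 : ℂ)) i = 0} = ∅ := by
        ext i
        simp
      rw [this]
      exact hS.empty_mem
    obtain ⟨r, hr, h2⟩ := hf _ h1 (1 / 2) (by norm_num)
    have h3 : (fun y : ι → ℂ => ‖eval y (0 : MvPolynomial ι ℂ)‖ₑ ^ (-(2 * (1 / 2 : ℝ) / m))) =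
        fun _ => (⊤ : ENNReal) := by
      funext y
      rw [map_zero, enorm_zero, ENNReal.zero_rpow_of_neg]
      have : 0 < 2 * (1 / 2 : ℝ) / m := by positivity
      linarith
    rw [h3, lintegral_const, Measure.restrict_apply_univ, ENNReal.top_mul] at h2
    · exact absurd h2 (lt_irrefl _)
    · exact (Metric.measure_ball_pos volume _ hr).ne'
  by_contra hcon
  push Not at hcon
  obtain ⟨α₀, hα₀⟩ := support_nonempty.2 hf0
  set s := ∑ i, a i with hs
  have hs0 : 1 ≤ s := by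
    by_contra h0
    have h1 : s = 0 := by omega
    have h2 : ∀ i, a i = 0 := by
      intro i
      rw [hs, Finset.sum_eq_zero_iff] at h1
      exact h1 i (Finset.mem_univ i)
    have h3 := hcon α₀ hα₀
    simp [h2] at h3
  set w := m * s + 1 with hw
  have hww : ∀ α ∈ f.support, w ≤ ∑ i, a i * α i := fun α hα => hcon α hα
  have hw0 : (0 : ℝ) < w := by
    rw [hw]
    positivity
  let x : ι → ℂ := fun i => if a i = 0 then 1 else 0
  have hx : {i | x i = 0} ∈ S := by
    have : {i | x i = 0} = {i | a i ≠ 0} := by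
      ext i
      simp only [Set.mem_ofPred_eq, x]
      split_ifs with h <;> simp [h]
    rw [this]
    exact ha
  set c : ℝ := (m * s : ℕ) / (w : ℝ) with hc
  have hc1 : c < 1 := by
    rw [hc, div_lt_one hw0, hw]
    push_cast
    linarith
  obtain ⟨r₀, hr₀, hfin⟩ := hf x hx c hc1
  set e : ℝ := -(2 * c / m) with he
  have he0 : e ≤ 0 := by
    rw [he]
    have : 0 ≤ 2 * c / m := by
      rw [hc]
      positivity
    linarith
  have hew : (w : ℝ) * e = -((2 * s : ℕ) : ℝ) := by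
    rw [he, hc]
    push_cast
    field_simp
  set r : ℝ := min r₀ 1 with hr
  have hr0 : 0 < r := lt_min hr₀ one_pos
  have hr1 : r ≤ 1 := min_le_right _ _
  set g : (ι → ℂ) → ENNReal := fun y => ‖eval y f‖ₑ ^ e with hg
  have hbox : ∀ t : ℝ, 0 < t → t ≤ 1 → box x a r t ⊆ Metric.ball x r₀ := by
    intro t ht0 ht1 y hy
    rw [Metric.mem_ball, dist_pi_lt_iff hr₀]
    intro i
    have h1 : dist (y i) (x i) < r * t ^ a i := hy i (Set.mem_univ i)
    have h2 : t ^ a i ≤ 1 := pow_le_one₀ ht0.le ht1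
    calc dist (y i) (x i) < r * t ^ a i := h1
      _ ≤ r * 1 := mul_le_mul_of_nonneg_left h2 hr0.le
      _ ≤ r₀ := by rw [mul_one]; exact min_le_left _ _
  set B := bd f with hB
  have hB0 : 0 < B := bd_pos hf0
  set κ : ENNReal := ENNReal.ofReal (B ^ e * ∏ _i : ι, (r ^ 2 * Real.pi)) with hκ
  have hκ0 : 0 < κ := ENNReal.ofReal_pos.2 (mul_pos (Real.rpow_pos_of_pos hB0 _)
    (Finset.prod_pos fun i _ => by positivity))
  have hlow : ∀ t : ℝ, 0 < t → t ≤ 1 → κ ≤ ∫⁻ y in box x a r t, g y := by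
    intro t ht0 ht1
    have h1 : ∀ y ∈ box x a r t, ENNReal.ofReal ((B * t ^ w) ^ e) ≤ g y := by
      intro y hy
      have h2 : ‖eval y f‖ ≤ B * t ^ w := by
        refine eval_le hww ht0.le ht1 fun i => ?_
        have h3 : dist (y i) (x i) < r * t ^ a i := hy i (Set.mem_univ i)
        rw [dist_eq_norm] at h3
        have h4 : ‖y i‖ ≤ ‖y i - x i‖ + ‖x i‖ := by
          simpa using norm_add_le (y i - x i) (x i)
        have h5 : ‖x i‖ ≤ t ^ a i := by
          simp only [x]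
          split_ifs with h
          · rw [h]
            simp
          · rw [norm_zero]
            positivity
        have h6 : r * t ^ a i ≤ t ^ a i := mul_le_of_le_one_left (by positivity) hr1
        linarith
      have h3 : ‖eval y f‖ₑ ≤ ENNReal.ofReal (B * t ^ w) := by
        rw [← ofReal_norm]
        exact ENNReal.ofReal_le_ofReal h2
      rw [← ENNReal.ofReal_rpow_of_pos (by positivity)]
      exact rpow_anti he0 h3
    have h2 : κ = ENNReal.ofReal ((B * t ^ w) ^ e) * volume (box x a r t) := by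
      rw [volume_box x a hr0 ht0, ← ENNReal.ofReal_mul (by positivity), hκ]
      congr 1
      have h3 : ((t ^ w : ℝ)) ^ e * t ^ (2 * s) = 1 := by
        rw [← Real.rpow_natCast t w, ← Real.rpow_mul ht0.le, hew, ← Real.rpow_natCast t (2 * s),
          ← Real.rpow_add ht0, neg_add_cancel, Real.rpow_zero]
      rw [Real.mul_rpow hB0.le (by positivity)]
      calc B ^ e * ∏ _i : ι, (r ^ 2 * Real.pi)
          = B ^ e * (∏ _i : ι, (r ^ 2 * Real.pi)) * ((t ^ w : ℝ) ^ e * t ^ (2 * s)) := by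
            rw [h3, mul_one]
        _ = _ := by ring
    rw [h2, ← setLIntegral_const]
    refine setLIntegral_mono' ?_ h1
    exact MeasurableSet.univ_pi fun i => Metric.isOpen_ball.measurableSet
  have hgfin : ∫⁻ y, g y ∂(volume.restrict (Metric.ball x r₀)) ≠ ⊤ := hfin.ne
  have hvol : Tendsto (fun k : ℕ => (volume.restrict (Metric.ball x r₀))
      (box x a r (1 / ((k : ℝ) + 1)))) atTop (𝓝 0) := by
    have h1 : Tendsto (fun k : ℕ => ENNReal.ofReal ((∏ _i : ι, (r ^ 2 * Real.pi)) *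
        (1 / ((k : ℝ) + 1)) ^ (2 * s))) atTop (𝓝 0) := by
      have h2 : Tendsto (fun k : ℕ => (∏ _i : ι, (r ^ 2 * Real.pi)) *
          (1 / ((k : ℝ) + 1)) ^ (2 * s)) atTop (𝓝 0) := by
        have h3 := (tendsto_one_div_add_atTop_nhds_zero_nat (𝕜 := ℝ)).pow (2 * s)
        rw [zero_pow (by omega)] at h3
        have h4 := h3.const_mul (∏ _i : ι, (r ^ 2 * Real.pi))
        rwa [mul_zero] at h4
      have h4 := ENNReal.tendsto_ofReal h2
      rwa [ENNReal.ofReal_zero] at h4
    refine tendsto_of_tendsto_of_tendsto_of_le_of_le tendsto_const_nhds h1 (fun _ => bot_le)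
      fun k => ?_
    refine (Measure.restrict_apply_le _ _).trans ?_
    rw [volume_box x a hr0 (by positivity)]
  have hlim := tendsto_setLIntegral_zero hgfin hvol
  have h1 : ∀ k : ℕ, κ ≤ ∫⁻ y in box x a r (1 / ((k : ℝ) + 1)), g y
      ∂(volume.restrict (Metric.ball x r₀)) := by
    intro k
    have ht0 : (0 : ℝ) < 1 / ((k : ℝ) + 1) := by positivity
    have ht1 : 1 / ((k : ℝ) + 1) ≤ 1 := by
      rw [div_le_one (by positivity)]
      linarith [(Nat.cast_nonneg k : (0 : ℝ) ≤ k)]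
    rw [Measure.restrict_restrict_of_subset (hbox _ ht0 ht1)]
    exact hlow _ ht0 ht1
  have h2 := ge_of_tendsto' hlim h1
  exact absurd h2 (not_le.2 hκ0)

end Run7.h323.TQ
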